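import Pool.Agent.Run7.h932.RG.Stm2

/-!
# Project RG of helper932: piece MODE (the binomial distribution at its mean)
-/

set_option autoImplicit false

namespace Run7.h305.RG

open Finset Run7.h932.RG

/-- The terms of the binomial expansion of `(m + (e - m)) ^ e`. -/
def bt (e m j : ℕ) : ℕ := m ^ j * (e - m) ^ (e - j) * e.choose j

theorem bt_succ (e m j : ℕ) (hj : j < e) :
    bt e m (j + 1) * ((j + 1) * (e - m)) = bt e m j * ((e - j) * m) := by
  unfold bt
  have h1 : e - j = (e - (j + 1)) + 1 := by omega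
  have h2 := Nat.choose_succ_right_eq e j
  calc m ^ (j + 1) * (e - m) ^ (e - (j + 1)) * e.choose (j + 1) * ((j + 1) * (e - m))
      = m ^ (j + 1) * ((e - m) ^ (e - (j + 1)) * (e - m)) * (e.choose (j + 1) * (j + 1)) := by ring
    _ = m ^ (j + 1) * (e - m) ^ (e - j) * (e.choose j * (e - j)) := by
        rw [h2, ← pow_succ, ← h1]
    _ = _ := by ring

theorem bt_up (e m j : ℕ) (hm : m ≤ e) (hj : j + 1 ≤ m) : bt e m j ≤ bt e m (j + 1) := by
  rcases eq_or_lt_of_le hm with rfl | h
  · have : bt m m j = 0 := by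
      unfold bt
      rw [Nat.sub_self, zero_pow (by omega)]
      simp
    rw [this]
    exact Nat.zero_le _
  · have h1 := bt_succ e m j (by omega)
    have hpos : 0 < (j + 1) * (e - m) := Nat.mul_pos (by omega) (by omega)
    have h2 : (j + 1) * (e - m) ≤ (e - j) * m := by
      obtain ⟨d, rfl⟩ := Nat.exists_eq_add_of_lt h
      obtain ⟨a, rfl⟩ := Nat.exists_eq_add_of_le hj
      have e1 : j + 1 + a + d + 1 - (j + 1 + a) = d + 1 := by omega
      have e2 : j + 1 + a + d + 1 - j = a + d + 2 := by omega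
      rw [e1, e2]
      nlinarith [Nat.zero_le a, Nat.zero_le d, Nat.zero_le j, Nat.zero_le (a * j), Nat.zero_le (d * a), Nat.zero_le (a * a)]
    refine Nat.le_of_mul_le_mul_right ?_ hpos
    rw [h1]
    exact Nat.mul_le_mul_left _ h2

theorem bt_down (e m j : ℕ) (hj : m ≤ j) (hje : j < e) : bt e m (j + 1) ≤ bt e m j := by
  have h1 := bt_succ e m j hje
  have hpos : 0 < (j + 1) * (e - m) := Nat.mul_pos (by omega) (by omega)
  have h2 : (e - j) * m ≤ (j + 1) * (e - m) := by
    obtain ⟨d, rfl⟩ := Nat.exists_eq_add_of_lt hje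
    obtain ⟨a, rfl⟩ := Nat.exists_eq_add_of_le hj
    have e1 : m + a + d + 1 - (m + a) = d + 1 := by omega
    have e2 : m + a + d + 1 - m = a + d + 1 := by omega
    rw [e1, e2]
    nlinarith [Nat.zero_le a, Nat.zero_le d, Nat.zero_le m, Nat.zero_le (a * m), Nat.zero_le (d * a), Nat.zero_le (a * a)]
  refine Nat.le_of_mul_le_mul_right ?_ hpos
  rw [h1]
  exact Nat.mul_le_mul_left _ h2

theorem bt_le (e m j : ℕ) (hm : m ≤ e) (hj : j ≤ e) : bt e m j ≤ bt e m m := by
  rcases le_total j m with h | h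
  · obtain ⟨a, ha⟩ := Nat.exists_eq_add_of_le h
    induction a generalizing j with
    | zero => rw [ha]; simp
    | succ a ih =>
      exact (bt_up e m j hm (by omega)).trans (ih (j + 1) (by omega) (by omega) (by omega))
  · obtain ⟨a, rfl⟩ := Nat.exists_eq_add_of_le h
    induction a with
    | zero => simp
    | succ a ih =>
      exact (bt_down e m (m + a) (by omega) (by omega)).trans (ih (by omega) (by omega))

theorem bt_sum (e m : ℕ) (hm : m ≤ e) : e ^ e ≤ (e + 1) * bt e m m := by
  have h1 := add_pow m (e - m) e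
  rw [Nat.add_sub_cancel' hm] at h1
  have h2 : ∑ j ∈ range (e + 1), m ^ j * (e - m) ^ (e - j) * e.choose j ≤
      ∑ j ∈ range (e + 1), bt e m m := by
    refine Finset.sum_le_sum fun j hj => ?_
    rw [Finset.mem_range] at hj
    exact bt_le e m j hm (by omega)
  rw [Finset.sum_const, Finset.card_range, smul_eq_mul] at h2
  simp only [Nat.cast_id] at h1
  rw [h1]
  exact h2

/-- MODE -/
theorem t_MODE : S_MODE := by
  intro e m hm
  rcases Nat.eq_zero_or_pos e with rfl | he
  · have : m = 0 := by omega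
    subst this
    simp
  · have h := bt_sum e m hm
    have he' : (0 : ℝ) < e := by exact_mod_cast he
    have h' : (e : ℝ) ^ e ≤ (e + 1) * ((m : ℝ) ^ m * ((e : ℝ) - m) ^ (e - m) * e.choose m) := by
      have h3 : ((e ^ e : ℕ) : ℝ) ≤ (((e + 1) * bt e m m : ℕ) : ℝ) := by exact_mod_cast h
      unfold bt at h3
      push_cast at h3
      rw [Nat.cast_sub hm] at h3
      exact h3
    have e1 : ((e : ℝ) + 1) * (e.choose m) * ((m : ℝ) / e) ^ m * (1 - (m : ℝ) / e) ^ (e - m) =
        (e + 1) * ((m : ℝ) ^ m * ((e : ℝ) - m) ^ (e - m) * e.choose m) / (e : ℝ) ^ e := by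
      have e2 : 1 - (m : ℝ) / e = ((e : ℝ) - m) / e := by field_simp
      have e3 : (e : ℝ) ^ e = (e : ℝ) ^ m * (e : ℝ) ^ (e - m) := by
        rw [← pow_add, Nat.add_sub_cancel' hm]
      rw [e2, div_pow, div_pow, e3]
      field_simp
    rw [e1, le_div_iff₀ (by positivity), one_mul]
    exact h'

end Run7.h305.RG
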