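import Pool.Agent.Run7.h932.RG.Stm2
import Pool.Agent.Run7.h925.RG.MOM

/-!
# Project RG of helper932: piece SPA2 (small sets span few edges)
-/

set_option autoImplicit false

namespace Run7.h305.RG

open Finset Classical Run7.h932.RG

/-- `lam ^ e(U)` as a product. -/
theorem pow_eU {n : ℕ} (lam : ℝ) (ω : Fin n → Fin n → Bool) (U : Finset (Fin n)) :
    lam ^ eU ω U = ∏ y, ∏ x, (if x ∈ U ∧ y ∈ U ∧ x < y ∧ ω y x = true then lam else 1) := by
  unfold eU
  rw [← Finset.prod_const, Finset.prod_filter, ← Finset.univ_product_univ, Finset.prod_product,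
    Finset.prod_comm]

/-- The expectation of `lam ^ e(U)`. -/
theorem exp_eU {n : ℕ} {p : Fin n → Fin n → ℝ} (h0 : ∀ x y, 0 ≤ p x y) (h1 : ∀ x y, p x y ≤ 1)
    (hs : ∀ x y, p x y = p y x) (lam : ℝ) (hl : 1 ≤ lam) (U : Finset (Fin n)) :
    ∑ ω, mu p ω * lam ^ eU ω U ≤
      Real.exp ((lam - 1) * ((∑ x ∈ U, ∑ y ∈ U, p x y) / 2)) := by
  have e1 : ∀ ω, mu p ω * lam ^ eU ω U = ∏ y, ∏ x, (wt (p x y) (ω y x) *
      (if x ∈ U ∧ y ∈ U ∧ x < y ∧ ω y x = true then lam else 1)) := by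
    intro ω
    rw [pow_eU]
    unfold mu
    rw [← Finset.prod_mul_distrib]
    exact Finset.prod_congr rfl fun y _ => Finset.prod_mul_distrib.symm
  rw [Finset.sum_congr rfl fun ω _ => e1 ω, Run7.h925.RG.sum_prod2 (fun (y x : Fin n) (b : Bool) =>
      wt (p x y) b * (if x ∈ U ∧ y ∈ U ∧ x < y ∧ b = true then lam else 1))]
  have e2 : ∀ y x : Fin n, 0 ≤ (wt (p x y) true * (if x ∈ U ∧ y ∈ U ∧ x < y ∧ true = true then lam
      else 1) + wt (p x y) false * (if x ∈ U ∧ y ∈ U ∧ x < y ∧ false = true then lam else 1)) ∧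
      (wt (p x y) true * (if x ∈ U ∧ y ∈ U ∧ x < y ∧ true = true then lam
      else 1) + wt (p x y) false * (if x ∈ U ∧ y ∈ U ∧ x < y ∧ false = true then lam else 1)) ≤
      Real.exp ((lam - 1) * (if x ∈ U ∧ y ∈ U ∧ x < y then p x y else 0)) := by
    intro y x
    have a0 := h0 x y
    have a1 := h1 x y
    simp only [wt, if_true, and_true, Bool.false_eq_true, and_false, if_false, mul_one]
    split_ifs with h
    · constructor
      · nlinarith
      · have := Real.add_one_le_exp ((lam - 1) * p x y)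
        nlinarith
    · rw [mul_zero, Real.exp_zero]
      constructor <;> linarith
  calc _ ≤ ∏ y : Fin n, ∏ x : Fin n,
        Real.exp ((lam - 1) * (if x ∈ U ∧ y ∈ U ∧ x < y then p x y else 0)) :=
        Finset.prod_le_prod (fun y _ => Finset.prod_nonneg fun x _ => (e2 y x).1)
          fun y _ => Finset.prod_le_prod (fun x _ => (e2 y x).1) fun x _ => (e2 y x).2
    _ = Real.exp ((lam - 1) * ∑ y : Fin n, ∑ x : Fin n,
        (if x ∈ U ∧ y ∈ U ∧ x < y then p x y else 0)) := by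
        rw [Finset.mul_sum, Real.exp_sum]
        refine Finset.prod_congr rfl fun y _ => ?_
        rw [Finset.mul_sum, Real.exp_sum]
    _ ≤ _ := by
        rw [Real.exp_le_exp]
        refine mul_le_mul_of_nonneg_left ?_ (by linarith)
        have f1 : ∑ x ∈ U, ∑ y ∈ U, p x y =
            ∑ y : Fin n, ∑ x : Fin n, (if x ∈ U ∧ y ∈ U then p x y else 0) := by
          have g1 : ∀ x, ∑ y, (if x ∈ U ∧ y ∈ U then p x y else 0) =
              if x ∈ U then ∑ y ∈ U, p x y else 0 := by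
            intro x
            by_cases hx : x ∈ U
            · simp [hx, Finset.sum_ite_mem]
            · simp [hx]
          rw [Finset.sum_comm (s := (univ : Finset (Fin n))), Finset.sum_congr rfl fun x _ => g1 x,
            Finset.sum_ite_mem, Finset.univ_inter]
        have f2 : ∑ y : Fin n, ∑ x : Fin n, (if x ∈ U ∧ y ∈ U ∧ x < y then p x y else 0) =
            ∑ y : Fin n, ∑ x : Fin n, (if y ∈ U ∧ x ∈ U ∧ y < x then p y x else 0) :=
          Finset.sum_comm
        have f3 : ∑ y : Fin n, ∑ x : Fin n, (if x ∈ U ∧ y ∈ U ∧ x < y then p x y else 0) +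
            ∑ y : Fin n, ∑ x : Fin n, (if y ∈ U ∧ x ∈ U ∧ y < x then p y x else 0) ≤
            ∑ y : Fin n, ∑ x : Fin n, (if x ∈ U ∧ y ∈ U then p x y else 0) := by
          rw [← Finset.sum_add_distrib]
          refine Finset.sum_le_sum fun y _ => ?_
          rw [← Finset.sum_add_distrib]
          refine Finset.sum_le_sum fun x _ => ?_
          have a0 := h0 x y
          have a1 := hs x y
          by_cases hx : x ∈ U
          · by_cases hy : y ∈ U
            · rcases lt_trichotomy x y with h | h | h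
              · simp [hx, hy, h, h.not_gt]
              · subst h
                simp [hx, a0]
              · simp [hx, hy, h, h.not_gt, a1]
            · simp [hy]
          · simp [hx]
        rw [← f2, ← f1] at f3
        linarith

/-- One set. -/
theorem one_set {n : ℕ} (hn : 1 ≤ n) {p : Fin n → Fin n → ℝ} (h0 : ∀ x y, 0 ≤ p x y)
    (h1 : ∀ x y, p x y ≤ 1) (hs : ∀ x y, p x y = p y x) (γ : ℝ) (hγ : 0 < γ) (r : ℕ)
    (U : Finset (Fin n)) (hU : ∑ x ∈ U, ∑ y ∈ U, p x y ≤ (n : ℝ) ^ (-γ) * U.card) :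
    ∑ ω, (if r * U.card ≤ 2 * eU ω U then mu p ω else 0) ≤
      (Real.exp (1 / 2) * (n : ℝ) ^ (-(γ * r / 2))) ^ U.card := by
  have hn' : (1 : ℝ) ≤ n := by exact_mod_cast hn
  have hn0 : (0 : ℝ) < n := by linarith
  have hmu := (Run7.h925.RG.t_TOT n p h0 h1).1
  set lam : ℝ := (n : ℝ) ^ γ with hlam
  have hl : 1 ≤ lam := Real.one_le_rpow hn' hγ.le
  set b : ℝ := (n : ℝ) ^ (-(γ * r / 2)) with hb
  have hb0 : 0 < b := Real.rpow_pos_of_pos hn0 _
  have e1 : ∀ ω, (if r * U.card ≤ 2 * eU ω U then mu p ω else 0) ≤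
      mu p ω * lam ^ eU ω U * b ^ U.card := by
    intro ω
    split_ifs with h
    · have h2 : 1 ≤ lam ^ eU ω U * b ^ U.card := by
        rw [hlam, hb, ← Real.rpow_mul_natCast hn0.le, ← Real.rpow_mul_natCast hn0.le,
          ← Real.rpow_add hn0]
        apply Real.one_le_rpow hn'
        have h3 : (r : ℝ) * U.card ≤ 2 * eU ω U := by exact_mod_cast h
        nlinarith
      have := mul_le_mul_of_nonneg_left h2 (hmu ω)
      rw [mul_one] at this
      rw [mul_assoc]
      exact this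
    · have := hmu ω
      positivity
  calc _ ≤ ∑ ω, mu p ω * lam ^ eU ω U * b ^ U.card := Finset.sum_le_sum fun ω _ => e1 ω
    _ = (∑ ω, mu p ω * lam ^ eU ω U) * b ^ U.card := by rw [Finset.sum_mul]
    _ ≤ Real.exp ((lam - 1) * ((∑ x ∈ U, ∑ y ∈ U, p x y) / 2)) * b ^ U.card :=
        mul_le_mul_of_nonneg_right (exp_eU h0 h1 hs lam hl U) (by positivity)
    _ ≤ Real.exp (U.card * (1 / 2)) * b ^ U.card := by
        refine mul_le_mul_of_nonneg_right ?_ (by positivity)
        rw [Real.exp_le_exp]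
        have h4 : (lam - 1) * ((∑ x ∈ U, ∑ y ∈ U, p x y) / 2) ≤
            (lam - 1) * ((n : ℝ) ^ (-γ) * U.card / 2) :=
          mul_le_mul_of_nonneg_left (by linarith) (by linarith)
        have h5 : lam * (n : ℝ) ^ (-γ) = 1 := by
          rw [hlam, ← Real.rpow_add hn0, add_neg_cancel, Real.rpow_zero]
        have h6 : 0 ≤ (n : ℝ) ^ (-γ) * U.card := by positivity
        have h7 : lam * (n : ℝ) ^ (-γ) * U.card = U.card := by rw [h5, one_mul]
        nlinarith
    _ = _ := by rw [Real.exp_nat_mul, mul_pow]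

/-- SPA2 -/
theorem t_SPA2 : S_SPA2 := by
  intro c γ K hc hc1 hγ hK
  refine ⟨⌈2 * (K + 3) / γ⌉₊, fun r hr => ⟨2, fun n hn p h0 h1 hs hspot => ?_⟩⟩
  have hn1 : 1 ≤ n := by omega
  have hn' : (2 : ℝ) ≤ n := by exact_mod_cast hn
  have hn0 : (0 : ℝ) < n := by linarith
  have hmu := (Run7.h925.RG.t_TOT n p h0 h1).1
  have hr' : K + 3 ≤ γ * r / 2 := by
    have h2 : 2 * (K + 3) / γ ≤ r := (Nat.le_ceil _).trans (by exact_mod_cast hr)
    rw [div_le_iff₀ hγ] at h2
    linarith
  set a : ℝ := Real.exp (1 / 2) * (n : ℝ) ^ (-(γ * r / 2)) with ha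
  have ha0 : 0 < a := mul_pos (Real.exp_pos _) (Real.rpow_pos_of_pos hn0 _)
  have hexp : Real.exp (1 / 2) ≤ 2 := by
    have h2 : Real.exp (1 / 2) * Real.exp (1 / 2) = Real.exp 1 := by
      rw [← Real.exp_add]
      norm_num
    have h3 := Real.exp_one_lt_d9
    have h4 := Real.exp_pos (1 / 2)
    nlinarith
  have ha1 : a ≤ 2 * (n : ℝ) ^ (-(K + 3)) := by
    refine mul_le_mul hexp ?_ (Real.rpow_nonneg hn0.le _) (by norm_num)
    exact Real.rpow_le_rpow_of_exponent_le (by linarith) (by linarith)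
  set S : Finset (Finset (Fin n)) := univ.filter fun U => U.Nonempty ∧
    (U.card : ℝ) ≤ 2 * (n : ℝ) ^ (1 - 3 * c / 20) with hS
  have e1 : ∑ ω ∈ univ.filter fun ω => ∃ U : Finset (Fin n), U.Nonempty ∧
      (U.card : ℝ) ≤ 2 * (n : ℝ) ^ (1 - 3 * c / 20) ∧ r * U.card ≤ 2 * eU ω U, mu p ω ≤
      ∑ ω, ∑ U ∈ S, (if r * U.card ≤ 2 * eU ω U then mu p ω else 0) := by
    rw [Finset.sum_filter]
    refine Finset.sum_le_sum fun ω _ => ?_
    have hnn : ∀ U ∈ S, 0 ≤ (if r * U.card ≤ 2 * eU ω U then mu p ω else 0) := by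
      intro U _
      split_ifs
      · exact hmu ω
      · exact le_rfl
    split_ifs with h
    · obtain ⟨U, hU1, hU2, hU3⟩ := h
      have hm : U ∈ S := by
        rw [hS, Finset.mem_filter]
        exact ⟨Finset.mem_univ _, hU1, hU2⟩
      have := Finset.single_le_sum hnn hm
      rw [if_pos hU3] at this
      exact this
    · exact Finset.sum_nonneg hnn
  have e2 : ∑ U ∈ S, a ^ U.card ≤ (a + 1) ^ n - 1 := by
    have h2 := Fintype.sum_pow_mul_eq_add_pow (Fin n) a 1
    simp only [one_pow, mul_one, Fintype.card_fin] at h2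
    have h3 : ∑ U ∈ insert ∅ S, a ^ U.card ≤ ∑ U : Finset (Fin n), a ^ U.card :=
      Finset.sum_le_univ_sum_of_nonneg fun U => by positivity
    rw [Finset.sum_insert (by rw [hS, Finset.mem_filter]; simp), h2] at h3
    simp only [Finset.card_empty, pow_zero] at h3
    linarith
  have e3 : 2 * (a * n) ≤ (n : ℝ) ^ (-K) := by
    have h2 : (n : ℝ) ^ (-(K + 3)) * n = (n : ℝ) ^ (-K) * ((n : ℝ) ^ 2)⁻¹ := by
      rw [← Real.rpow_natCast (n : ℝ) 2, ← Real.rpow_neg hn0.le, ← Real.rpow_add hn0]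
      nth_rw 2 [← Real.rpow_one (n : ℝ)]
      rw [← Real.rpow_add hn0]
      congr 1
      push_cast
      ring
    have h3 : (0 : ℝ) < (n : ℝ) ^ (-K) := Real.rpow_pos_of_pos hn0 _
    have h4 : ((n : ℝ) ^ 2)⁻¹ ≤ 1 / 4 := by
      rw [inv_le_comm₀ (by positivity) (by norm_num)]
      nlinarith
    calc 2 * (a * n) ≤ 2 * (2 * (n : ℝ) ^ (-(K + 3)) * n) := by gcongr
      _ = 4 * ((n : ℝ) ^ (-K) * ((n : ℝ) ^ 2)⁻¹) := by rw [← h2]; ring
      _ ≤ 4 * ((n : ℝ) ^ (-K) * (1 / 4)) := by gcongr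
      _ = _ := by ring
  have e4 : a * n ≤ 1 := by
    have h3 : (n : ℝ) ^ (-K) ≤ 1 := Real.rpow_le_one_of_one_le_of_nonpos (by linarith) (by linarith)
    linarith
  calc _ ≤ ∑ ω, ∑ U ∈ S, (if r * U.card ≤ 2 * eU ω U then mu p ω else 0) := e1
    _ = ∑ U ∈ S, ∑ ω, (if r * U.card ≤ 2 * eU ω U then mu p ω else 0) := Finset.sum_comm
    _ ≤ ∑ U ∈ S, a ^ U.card := by
        refine Finset.sum_le_sum fun U hU => ?_
        rw [hS, Finset.mem_filter] at hU
        exact one_set hn1 h0 h1 hs γ hγ r U (hspot U hU.2.2)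
    _ ≤ (a + 1) ^ n - 1 := e2
    _ ≤ Real.exp (a * n) - 1 := by
        have h5 : (a + 1) ^ n ≤ Real.exp a ^ n :=
          pow_le_pow_left₀ (by positivity) (Real.add_one_le_exp a) n
        rw [← Real.exp_nat_mul, mul_comm (n : ℝ) a] at h5
        linarith
    _ ≤ 2 * (a * n) := by
        have h6 := Real.abs_exp_sub_one_le (x := a * n) (by rw [abs_of_nonneg (by positivity)]; exact e4)
        rw [abs_of_nonneg (a := a * (n : ℝ)) (by positivity)] at h6
        exact (le_abs_self _).trans h6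
    _ ≤ _ := e3

end Run7.h305.RG
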