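import Pool.Agent.Run7.h932.RG.Stm2

/-!
# Project RG of helper932: piece TRIM (removing vertices with few incident edges)
-/

set_option autoImplicit false

namespace Run7.h305.RG

open Finset Classical Run7.h932.RG

theorem fin_col {V : Type} [Finite V] (G : SimpleGraph V) (q : ℕ) : Finite (G.Coloring (Fin q)) :=
  Finite.of_injective (fun c : G.Coloring (Fin q) => (c : V → Fin q)) DFunLike.coe_injective

/-- Restriction of colourings. -/
theorem card_col_le {V : Type} [Finite V] (G : SimpleGraph V) (D : Set V) (q : ℕ) :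
    Nat.card (G.Coloring (Fin q)) ≤ q ^ D.ncard * Nat.card ((G.induce Dᶜ).Coloring (Fin q)) := by
  have _ := fin_col (G.induce Dᶜ) q
  have h1 : Nat.card ((D → Fin q) × (G.induce Dᶜ).Coloring (Fin q)) =
      q ^ D.ncard * Nat.card ((G.induce Dᶜ).Coloring (Fin q)) := by
    rw [Nat.card_prod, Nat.card_fun, Nat.card_eq_fintype_card (α := Fin q), Fintype.card_fin]
    rfl
  rw [← h1]
  refine Nat.card_le_card_of_injective (fun c : G.Coloring (Fin q) =>
    ((fun x : D => c x.1, (SimpleGraph.Coloring.mk (fun x : (Dᶜ : Set V) => c x.1)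
      (fun {a b} hab => c.valid hab))) : (D → Fin q) × (G.induce Dᶜ).Coloring (Fin q))) ?_
  intro c c' h
  have h1 := congrArg Prod.fst h
  have h2 := congrArg Prod.snd h
  apply DFunLike.coe_injective
  funext x
  by_cases hx : x ∈ D
  · exact congrFun h1 ⟨x, hx⟩
  · exact DFunLike.congr_fun h2 (⟨x, hx⟩ : (Dᶜ : Set V))

/-- The edges of the graph and of the graph without `D`. -/
theorem card_edge_le {n : ℕ} (G : SimpleGraph (Fin n)) (D : Set (Fin n)) :
    Nat.card G.edgeSet ≤ Nat.card (G.induce Dᶜ).edgeSet +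
      ∑ x ∈ univ.filter (fun x => x ∈ D), (univ.filter fun y => G.Adj x y).card := by
  rw [Nat.card_coe_set_eq, Nat.card_coe_set_eq]
  have h1 : G.edgeSet ⊆ (Sym2.map (fun x : (Dᶜ : Set (Fin n)) => x.1)) '' (G.induce Dᶜ).edgeSet ∪
      (((univ.filter (fun x => x ∈ D)).biUnion fun x =>
        (univ.filter fun y => G.Adj x y).image fun y => s(x, y) : Finset (Sym2 (Fin n))) :
          Set (Sym2 (Fin n))) := by
    intro e he
    induction e using Sym2.ind with
    | _ a b =>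
      rw [SimpleGraph.mem_edgeSet] at he
      by_cases ha : a ∈ D
      · right
        rw [Finset.mem_coe, Finset.mem_biUnion]
        exact ⟨a, by simp [ha], Finset.mem_image.2 ⟨b, by simp [he], rfl⟩⟩
      · by_cases hb : b ∈ D
        · right
          rw [Finset.mem_coe, Finset.mem_biUnion]
          exact ⟨b, by simp [hb], Finset.mem_image.2 ⟨a, by simp [he.symm], Sym2.eq_swap⟩⟩
        · left
          refine ⟨s(⟨a, ha⟩, ⟨b, hb⟩), ?_, rfl⟩
          rw [SimpleGraph.mem_edgeSet]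
          exact he
  refine (Set.ncard_le_ncard h1 (Set.toFinite _)).trans ((Set.ncard_union_le _ _).trans ?_)
  refine add_le_add (Set.ncard_image_le (Set.toFinite _)) ?_
  rw [Set.ncard_coe_finset]
  refine Finset.card_biUnion_le.trans (Finset.sum_le_sum fun x _ => Finset.card_image_le)

theorem num_trim (η : ℝ) (q n d : ℕ) (h0 : 0 < η) (h1 : η < 1) (hq : 4 / η ≤ q)
    (hd : 2 * d ≤ n) : (1 - η) ^ (n - d) ≤ (1 - 1 / (q : ℝ)) ^ n * (1 - η / 4) ^ n := by
  have hq0 : (0 : ℝ) < q := lt_of_lt_of_le (by positivity) hq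
  have hq1 : 1 / (q : ℝ) ≤ η / 4 := by
    rw [div_le_iff₀ h0] at hq
    rw [div_le_iff₀ hq0]
    linarith
  have e1 : 0 ≤ 1 - η / 4 := by linarith
  have e2 : 1 - η / 4 ≤ 1 := by linarith
  have e3 : 1 - η ≤ (1 - η / 4) ^ 4 := by
    have := one_add_mul_le_pow (a := -(η / 4)) (by linarith) 4
    push_cast at this
    calc 1 - η = 1 + 4 * (-(η / 4)) := by ring
      _ ≤ (1 + -(η / 4)) ^ 4 := this
      _ = _ := by ring
  calc (1 - η) ^ (n - d) ≤ ((1 - η / 4) ^ 4) ^ (n - d) :=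
        pow_le_pow_left₀ (by linarith) e3 _
    _ = (1 - η / 4) ^ (4 * (n - d)) := by rw [pow_mul]
    _ ≤ (1 - η / 4) ^ (2 * n) := pow_le_pow_of_le_one e1 e2 (by omega)
    _ = (1 - η / 4) ^ n * (1 - η / 4) ^ n := by rw [two_mul, pow_add]
    _ ≤ (1 - 1 / (q : ℝ)) ^ n * (1 - η / 4) ^ n := by
        refine mul_le_mul_of_nonneg_right ?_ (pow_nonneg e1 _)
        exact pow_le_pow_left₀ e1 (by linarith) _

/-- TRIM -/
theorem t_TRIM : S_TRIM := by
  intro η q n G D h0 h1 hq hD hdeg hB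
  have hq0 : (0 : ℝ) < q := lt_of_lt_of_le (by positivity) hq
  have hq1 : 1 / (q : ℝ) ≤ η / 4 := by
    rw [div_le_iff₀ h0] at hq
    rw [div_le_iff₀ hq0]
    linarith
  have hr0 : 0 ≤ 1 - 1 / (q : ℝ) := by linarith
  have hr1 : 1 - 1 / (q : ℝ) ≤ 1 := by
    have : 0 ≤ 1 / (q : ℝ) := by positivity
    linarith
  unfold Bound at hB ⊢
  have c1 : Nat.card (Fin n) = n := by rw [Nat.card_eq_fintype_card, Fintype.card_fin]
  have c2 : Nat.card (Dᶜ : Set (Fin n)) = n - D.ncard := by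
    rw [Nat.card_coe_set_eq, Set.ncard_compl, c1]
  have c3 := card_col_le G D q
  have c4 := card_edge_le G D
  rw [c1] at hB
  rw [c2]
  set m := Nat.card G.edgeSet with hm
  set m' := Nat.card (G.induce Dᶜ).edgeSet with hm'
  set N := Nat.card (G.Coloring (Fin q)) with hN
  set N' := Nat.card ((G.induce Dᶜ).Coloring (Fin q)) with hN'
  set d := D.ncard with hd
  have c5 : m ≤ m' + n := c4.trans (by omega)
  have c6 : (N : ℝ) ≤ (q : ℝ) ^ d * N' := by exact_mod_cast c3
  have c7 := num_trim η q n d h0 h1 hq hD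
  have hqd : (0 : ℝ) < (q : ℝ) ^ d := by positivity
  refine le_of_mul_le_mul_left ?_ hqd
  calc (q : ℝ) ^ d * ((1 - 1 / (q : ℝ)) ^ m' * ((1 - η) * q) ^ (n - d))
      = (1 - 1 / (q : ℝ)) ^ m' * ((1 - η) ^ (n - d) * (q : ℝ) ^ n) := by
        rw [mul_pow]
        have : (q : ℝ) ^ n = (q : ℝ) ^ d * (q : ℝ) ^ (n - d) := by
          rw [← pow_add]
          congr 1
          omega
        rw [this]
        ring
    _ ≤ (1 - 1 / (q : ℝ)) ^ m' * (((1 - 1 / (q : ℝ)) ^ n * (1 - η / 4) ^ n) * (q : ℝ) ^ n) := by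
        gcongr
    _ = (1 - 1 / (q : ℝ)) ^ (m' + n) * ((1 - η / 4) * q) ^ n := by
        rw [pow_add, mul_pow]
        ring
    _ ≤ (1 - 1 / (q : ℝ)) ^ m * ((1 - η / 4) * q) ^ n := by
        refine mul_le_mul_of_nonneg_right (pow_le_pow_of_le_one hr0 hr1 c5) ?_
        have : 0 ≤ 1 - η / 4 := by linarith
        positivity
    _ ≤ N := hB
    _ ≤ _ := c6

end Run7.h305.RG
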